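import Pool.Agent.H673R2.OneTT.Sep5

/-!
# MP_675993_lc, Q1: Cook and Karp-Levin completeness relative to a random oracle

With probability one relative to a random oracle `A`:

1. There is a set in `NP` which is complete under Turing reductions, even with two adaptive
   queries, but not under many-one reductions (nor under reductions with one query).
2. With one query there is no difference: if a set in `NP` is complete under reductions which ask
   one query and evaluate the answer in an arbitrary way, it is complete under many-one
   reductions, even under one-one, length-increasing ones.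

So the least number of queries for which completeness under Turing reductions differs from
completeness under many-one reductions is exactly two.

Idea of the proof of the second part. The test language contains `⟨z, r⟩` if `r` is a value of `G`
and `z ∈ L`, or if `r` is a value of `G'`, where `G, G' : {0,1}^{2k} → {0,1}^{4k}` are sparse
random functions read from the oracle. Let `y(r)` be the string about which the reduction asks on
`⟨z, r⟩`. Suppose that for many `r` the answer is used negatively. If `r` is not a value of `G` or
`G'`, then `y(r) ∈ B`, which is certified by an accepting computation of the machine for `B`. Plant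
`r` as a value of `G'` at a random place which this computation does not touch: the reduction is
now wrong. For every resulting oracle the number of places where `r` may have been planted is
small, since removing one planted value does not repair the error made at another one. So the
oracles for which the reduction is right have small probability. Hence the answer for `⟨z, G(s)⟩`
with a secret seed `s` is used positively, and the result on many-one hard sets applies.

First part: `D = C ⊕ (C ∩ K) ⊕ (C ∪ K)` with `K` complete and `C` a random set in `NP`.
-/

namespace Pool.Agent.Results.MP_675993_lc.OneAndTwoQueries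

open MeasureTheory Pool.Agent.NPC Pool.Agent.H628R3.RO

open Classical in
/-- The membership bit: `[true]` if `y` is in `B`, else `[false]`. -/
noncomputable def bit (B : Set (List Bool)) (y : List Bool) : List Bool := [decide (y ∈ B)]

/-- Reductions with one query to `B`, polynomial-time computable relative to `A`: `Q x` is the
query, and `H` evaluates the answer. -/
def OneQueryRed (A : Oracle) (L B : Set (List Bool)) : Prop :=
  ∃ Q H : List Bool → List Bool, IsFP A Q ∧ IsFP A H ∧
    ∀ x, x ∈ L ↔ H (pairBits x (bit B (Q x))) = [true]

/-- Reductions with two adaptive queries to `B`, polynomial-time computable relative to `A`: `Q₁ x`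
is the first query, `Q₂` computes the second query from `x` and the first answer, and `H` evaluates
the two answers. -/
def TwoQueryRed (A : Oracle) (L B : Set (List Bool)) : Prop :=
  ∃ Q₁ Q₂ H : List Bool → List Bool, IsFP A Q₁ ∧ IsFP A Q₂ ∧ IsFP A H ∧
    ∀ x, x ∈ L ↔ H (pairBits x (bit B (Q₁ x) ++ bit B (Q₂ (pairBits x (bit B (Q₁ x)))))) = [true]

open Classical in
/-- The oracle which answers questions to `A` (first bit `0`) and to `B` (first bit `1`). -/
noncomputable def join (A : Oracle) (B : Set (List Bool)) : Oracle
  | [] => false
  | false :: y => A y
  | true :: y => decide (y ∈ B)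

/-- Turing reducibility relative to `A`: a polynomial-time algorithm which may ask questions to `A`
and to `B` decides `L`. -/
def TuringRed (A : Oracle) (L B : Set (List Bool)) : Prop :=
  ∃ F : List Bool → List Bool, IsFP (join A B) F ∧ ∀ x, x ∈ L ↔ F x = [true]

theorem turing_of {A : Oracle} {L B : Set (List Bool)} (h : Pool.Agent.H673R2.OneTT.RedT A L B) :
    TuringRed A L B := by
  have h1 : Pool.Agent.H673R2.OneTT.join A B = join A B := by
    funext x
    rcases x with _ | ⟨b, x⟩
    · rfl
    · cases b <;> rfl
  obtain ⟨F, hF, h⟩ := h
  rw [h1] at hF
  exact ⟨F, hF, h⟩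

/-- With probability one relative to a random oracle `A`: some set is complete for `NP` under
Turing reductions with two queries, but not under many-one reductions and not under reductions with
one query; and every set in `NP` which is hard for `NP` under reductions with one query is hard
under one-one, length-increasing many-one reductions. -/
theorem result : ∀ᵐ A ∂randomOracle,
    (∃ D : Set (List Bool), IsNP A D ∧
      (∀ L, IsNP A L → TwoQueryRed A L D ∧ TuringRed A L D) ∧
      (∃ L, IsNP A L ∧ ¬ Red A L D) ∧ (∃ L, IsNP A L ∧ ¬ OneQueryRed A L D)) ∧
    ∀ B : Set (List Bool), IsNP A B → (∀ L, IsNP A L → OneQueryRed A L B) →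
      ∀ L : Set (List Bool), IsNP A L → ∃ F : List Bool → List Bool, IsFP A F ∧
        Function.Injective F ∧ (∀ x, x.length < (F x).length) ∧ ∀ x, x ∈ L ↔ F x ∈ B := by
  filter_upwards [Pool.Agent.H673R2.OneOne.ae_Good, Pool.Agent.H673R2.OneTT.ae_NB,
    Pool.Agent.H673R2.OneTT.ae_not_red] with A hA hN hD
  have h2 : ∀ B : Set (List Bool), IsNP A B → (∀ L, IsNP A L → OneQueryRed A L B) →
      ∀ L : Set (List Bool), IsNP A L → ∃ F : List Bool → List Bool, IsFP A F ∧
        Function.Injective F ∧ (∀ x, x.length < (F x).length) ∧ ∀ x, x ∈ L ↔ F x ∈ B :=
    fun B hB h L hL => Pool.Agent.H673R2.OneTT.one_question hA hN hB h hL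
  refine ⟨⟨Pool.Agent.H673R2.OneTT.DD A, Pool.Agent.H673R2.OneTT.isNP_DD A, fun L hL =>
    ⟨Pool.Agent.H673R2.OneTT.red2T_DD hL, turing_of (Pool.Agent.H673R2.OneTT.RedT.of_two
      (Pool.Agent.H673R2.OneTT.red2T_DD hL))⟩,
    ⟨_, Pool.Agent.H673R2.OneTT.isNP_Hs A 5, hD⟩, ?_⟩, h2⟩
  by_contra hno
  push Not at hno
  obtain ⟨F, hF, -, -, h⟩ := h2 _ (Pool.Agent.H673R2.OneTT.isNP_DD A) hno _
    (Pool.Agent.H673R2.OneTT.isNP_Hs A 5)
  exact hD ⟨F, hF, h⟩

end Pool.Agent.Results.MP_675993_lc.OneAndTwoQueries
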