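import Pool.Agent.H550R2.CK.Main

set_option autoImplicit false

/-! Symmetric reductions with one and with two queries. -/

namespace Pool.Agent.Results.MP_675993_lc.SymmetricOneTwo

open Pool.Agent.H550R2.Lift Pool.Agent.H550R2.Lin Pool.Agent.H550R2.CK
open Pool.Agent.H550R2.Neg (act)
open Pool.Agent.H30R2.NS (Clause Ext Sat Small)

theorem result
    -- finite fields, encodings of the strings of length `m`, balanced predicates
    (K : ℕ → Type) [∀ m, Field (K m)] [∀ m, Fintype (K m)] [∀ m, DecidableEq (K m)]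
    (enc : ∀ m, (Fin m → Bool) → K m) (henc : ∀ m, Function.Injective (enc m))
    (lam : ∀ m, K m → Bool)
    (hlam : ∀ m, 2 * (Finset.univ.filter fun y => lam m y = true).card = Fintype.card (K m))
    -- numberings of the clauses
    (num : ∀ n, Clause 3 (Fin n) ≃ Fin ((2 * n) ^ 3)) :
    -- polynomials of small degree
    (∀ m, kk m ≤ 16 * (m + 2) ^ 4) ∧
    ∃ a : ∀ m, Fin (kk m) → K m,
      -- two queries suffice
      (∀ (n : ℕ) (V : Type) (ι : V → Fin n) (E : Ext ι),
        ∃ F : LProc (Clause 3 (Fin n)) V (act 3 E) 2, F.cost = 2 * ((2 * n) ^ 3 + 2) ∧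
          ∀ Φ : Set (Clause 3 (Fin n)),
            F.acc (Cook (fun m => hset (enc m) (lam m) (a m)) (SAT3 num)) (ind Φ) = true ↔
              Sat Φ) ∧
      -- one query does not
      ∀ (B : ∀ m, Set (Fin m → Bool)) (X : Type) (n w : ℕ) (ι : Fin n → X),
        Function.Injective ι → ∀ (E : Ext ι) (F : LProc (Clause 3 X) (Fin n) (act 3 E) 1),
        (∀ Φ ∈ Small 3 X (4 * (n + 1)),
          F.acc (Cook (fun m => hset (enc m) (lam m) (a m)) B) (ind Φ) = true ↔ Sat Φ) →
        F.cost < 2 ^ w → 1 ≤ w → n < 48000 * w ^ 2 := by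
  refine ⟨fun m => ?_, ?_⟩
  · have h1 : 2 ^ Nat.clog 2 (m + 2) ≤ 2 * (m + 2) := by
      have h2 : 1 ≤ Nat.clog 2 (m + 2) := Nat.clog_pos (by norm_num) (by omega)
      have h3 := Nat.pow_pred_clog_lt_self (b := 2) (by norm_num) (x := m + 2) (by omega)
      have h4 : Nat.clog 2 (m + 2) = (Nat.clog 2 (m + 2)).pred + 1 := by
        rw [Nat.pred_eq_sub_one]
        omega
      rw [h4, pow_succ]
      omega
    calc kk m = (2 ^ Nat.clog 2 (m + 2)) ^ 4 := by
          unfold kk
          rw [← pow_mul, mul_comm]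
      _ ≤ (2 * (m + 2)) ^ 4 := Nat.pow_le_pow_left h1 4
      _ = 16 * (m + 2) ^ 4 := by ring
  · choose a ha using fun m => exists_gen m (enc m) (henc m) (lam m) (hlam m)
    refine ⟨a, ?_, ?_⟩
    · intro n V ι E
      have hA : ∀ y y' : V → ZMod 2, act 3 E (y + y') = act 3 E y * act 3 E y' := fun y y' => by
        unfold act
        rw [E.add, Pool.Agent.H30R2.NS.neg_add]
      refine ⟨twoQ (num n) (act 3 E) hA, twoQ_cost _ _ _, ?_⟩
      intro Φ
      rw [twoQ_acc]
      exact str_mem num n Φ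
    · intro B X n w ι hι E F hF hc hw
      exact one_bound hι E F _ B (fun m => ha m) hc hw hF

end Pool.Agent.Results.MP_675993_lc.SymmetricOneTwo
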